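import Mathlib

/-!
# MP_fa5fea_an: a finite Clifford spectrum with more than `n` points

Three Hermitian `3 × 3` matrices whose Clifford spectrum is finite and has exactly five points.
-/

open scoped Kronecker
open Matrix

namespace Pool.Agent.Results.MP_fa5fea_an.FivePoints

/-- `γ` is an irreducible representation of the Clifford relations
`γ_j γ_l + γ_l γ_j = 2 δ_{jl} I` by Hermitian matrices of size `k ≥ 1`. -/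
structure IsCliffordIrrep {d k : ℕ} (γ : Fin d → Matrix (Fin k) (Fin k) ℂ) : Prop where
  /-- the size is positive -/
  pos : 0 < k
  /-- the matrices are Hermitian -/
  herm : ∀ j, (γ j).IsHermitian
  /-- the Clifford relations -/
  rel : ∀ j l, γ j * γ l + γ l * γ j = if j = l then (2 : ℂ) • 1 else 0
  /-- no proper nonzero invariant subspace -/
  irred : ∀ W : Submodule ℂ (Fin k → ℂ), (∀ j, ∀ w ∈ W, γ j *ᵥ w ∈ W) → W = ⊥ ∨ W = ⊤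

/-- The spectral localizer `L_λ(A_1, …, A_d) = ∑_j (A_j - λ_j) ⊗ γ_j`. -/
noncomputable def localizer {n d k : ℕ} (A : Fin d → Matrix (Fin n) (Fin n) ℂ)
    (γ : Fin d → Matrix (Fin k) (Fin k) ℂ) (lam : Fin d → ℝ) :
    Matrix (Fin n × Fin k) (Fin n × Fin k) ℂ :=
  ∑ j, (A j - (lam j : ℂ) • (1 : Matrix (Fin n) (Fin n) ℂ)) ⊗ₖ γ j

/-- The Clifford spectrum: all `λ ∈ ℝ^d` for which the localizer is not invertible. -/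
def cliffordSpectrum {n d k : ℕ} (A : Fin d → Matrix (Fin n) (Fin n) ℂ)
    (γ : Fin d → Matrix (Fin k) (Fin k) ℂ) : Set (Fin d → ℝ) :=
  {lam | ¬ IsUnit (localizer A γ lam)}

/-- the Pauli matrices -/
def sig : Fin 3 → Matrix (Fin 2) (Fin 2) ℂ :=
  ![!![0, 1; 1, 0], !![0, -Complex.I; Complex.I, 0], !![1, 0; 0, -1]]

/-- the three matrices `E₂₃ + E₃₂`, `E₁₃ + E₃₁`, `E₁₂ + E₂₁` -/
def AA : Fin 3 → Matrix (Fin 3) (Fin 3) ℂ :=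
  ![!![0, 0, 0; 0, 0, 1; 0, 1, 0], !![0, 0, 1; 0, 0, 0; 1, 0, 0], !![0, 1, 0; 1, 0, 0; 0, 0, 0]]

lemma sig_irrep : IsCliffordIrrep sig where
  pos := by norm_num
  herm j := by
    fin_cases j <;> ext a b <;> fin_cases a <;> fin_cases b <;>
      simp [sig, Matrix.conjTranspose_apply]
  rel j l := by
    fin_cases j <;> fin_cases l <;> ext a b <;> fin_cases a <;> fin_cases b <;>
      simp [sig, Matrix.mul_apply, Fin.sum_univ_two] <;> norm_num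
  irred W hW := by
    by_cases h : W = ⊥
    · exact Or.inl h
    right
    obtain ⟨w, hw, hw0⟩ := (Submodule.ne_bot_iff W).mp h
    have h1 : ![w 1, w 0] ∈ W := by
      have := hW 0 w hw
      convert this using 1
      ext i; fin_cases i <;> simp [sig, Matrix.mulVec, dotProduct, Fin.sum_univ_two]
    have h3 : ![w 0, -w 1] ∈ W := by
      have := hW 2 w hw
      convert this using 1
      ext i; fin_cases i <;> simp [sig, Matrix.mulVec, dotProduct, Fin.sum_univ_two]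
    have hflip : ∀ v ∈ W, ![v 1, v 0] ∈ W := by
      intro v hv
      have := hW 0 v hv
      convert this using 1
      ext i; fin_cases i <;> simp [sig, Matrix.mulVec, dotProduct, Fin.sum_univ_two]
    have hA : ![w 0, 0] ∈ W := by
      have := W.smul_mem (1 / 2 : ℂ) (W.add_mem hw h3)
      convert this using 1
      ext i; fin_cases i
      · change w 0 = (1 / 2 : ℂ) * (w 0 + w 0)
        ring
      · change (0 : ℂ) = (1 / 2 : ℂ) * (w 1 + -w 1)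
        ring
    have hB : ![0, w 1] ∈ W := by
      have := W.smul_mem (1 / 2 : ℂ) (W.sub_mem hw h3)
      convert this using 1
      ext i; fin_cases i
      · change (0 : ℂ) = (1 / 2 : ℂ) * (w 0 - w 0)
        ring
      · change w 1 = (1 / 2 : ℂ) * (w 1 - -w 1)
        ring
    have he0 : ![(1 : ℂ), 0] ∈ W := by
      by_cases h0 : w 0 = 0
      · have h1' : w 1 ≠ 0 := by
          intro h1'
          apply hw0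
          ext i; fin_cases i
          · exact h0
          · exact h1'
        have := W.smul_mem (w 1)⁻¹ (hflip _ hB)
        convert this using 1
        ext i; fin_cases i <;> simp [h1']
      · have := W.smul_mem (w 0)⁻¹ hA
        convert this using 1
        ext i; fin_cases i <;> simp [h0]
    have he1 : ![(0 : ℂ), 1] ∈ W := by
      have := hflip _ he0
      simpa using this
    rw [eq_top_iff]
    intro v _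
    have := W.add_mem (W.smul_mem (v 0) he0) (W.smul_mem (v 1) he1)
    convert this using 1
    ext i; fin_cases i <;> simp

lemma AA_herm (j : Fin 3) : (AA j).IsHermitian := by
  fin_cases j <;> ext a b <;> fin_cases a <;> fin_cases b <;>
    simp [AA, Matrix.conjTranspose_apply]

/-- the negative of the determinant -/
def pol (x y z : ℝ) : ℝ :=
  (x ^ 2 + y ^ 2 + z ^ 2) * (x ^ 2 + y ^ 2 + z ^ 2 + 1) ^ 2 - 16 * (x * y * z)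

/-- entry of the adjugate -/
def c00 (x y z : ℝ) : ℂ :=
  ⟨x ^ 4 * z + 2 * x ^ 2 * y ^ 2 * z + 2 * x ^ 2 * z ^ 3 - 2 * x ^ 2 * z - 4 * x * y + y ^ 4 * z + 2 * y ^ 2 * z ^ 3 + 2 * y ^ 2 * z + z ^ 5 + 2 * z ^ 3 + z,
    0⟩

/-- entry of the adjugate -/
def c01 (x y z : ℝ) : ℂ :=
  ⟨x ^ 5 + 2 * x ^ 3 * y ^ 2 + 2 * x ^ 3 * z ^ 2 + x * y ^ 4 + 2 * x * y ^ 2 * z ^ 2 + 4 * x * y ^ 2 + x * z ^ 4 + 4 * x * z ^ 2 - x,
    - x ^ 4 * y - 2 * x ^ 2 * y ^ 3 - 2 * x ^ 2 * y * z ^ 2 + 2 * x ^ 2 * y + 4 * x * z - y ^ 5 - 2 * y ^ 3 * z ^ 2 - 2 * y ^ 3 - y * z ^ 4 - 2 * y * z ^ 2 - y⟩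

/-- entry of the adjugate -/
def c02 (x y z : ℝ) : ℂ :=
  ⟨- x ^ 4 - 2 * x ^ 2 * y ^ 2 - x ^ 2 + 4 * x * y * z - y ^ 4 - y ^ 2 + z ^ 4 + z ^ 2,
    x ^ 2 * z - 4 * x * y + y ^ 2 * z + z ^ 3 + z⟩

/-- entry of the adjugate -/
def c03 (x y z : ℝ) : ℂ :=
  ⟨2 * x ^ 3 * z + 3 * x ^ 2 * y + 2 * x * y ^ 2 * z + 2 * x * z ^ 3 + 2 * x * z - y ^ 3 - y * z ^ 2 - y,
    x ^ 3 - 2 * x ^ 2 * y * z - 3 * x * y ^ 2 + x * z ^ 2 + x - 2 * y ^ 3 * z - 2 * y * z ^ 3 - 2 * y * z⟩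

/-- entry of the adjugate -/
def c04 (x y z : ℝ) : ℂ :=
  ⟨- x ^ 3 + 2 * x ^ 2 * y * z - x * y ^ 2 + 3 * x * z ^ 2 - x + 2 * y ^ 3 * z + 2 * y * z ^ 3 + 2 * y * z,
    - x ^ 2 * y + 4 * x * z - y ^ 3 - y * z ^ 2 - y⟩

/-- entry of the adjugate -/
def c05 (x y z : ℝ) : ℂ :=
  ⟨2 * x ^ 3 * y + 3 * x ^ 2 * z + 2 * x * y ^ 3 + 2 * x * y * z ^ 2 + 2 * x * y - y ^ 2 * z - z ^ 3 - z,
    x ^ 4 + 2 * x ^ 2 * z ^ 2 + x ^ 2 - 4 * x * y * z - y ^ 4 - y ^ 2 + z ^ 4 + z ^ 2⟩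

/-- entry of the adjugate -/
def c10 (x y z : ℝ) : ℂ :=
  ⟨x ^ 5 + 2 * x ^ 3 * y ^ 2 + 2 * x ^ 3 * z ^ 2 + x * y ^ 4 + 2 * x * y ^ 2 * z ^ 2 + 4 * x * y ^ 2 + x * z ^ 4 + 4 * x * z ^ 2 - x,
    x ^ 4 * y + 2 * x ^ 2 * y ^ 3 + 2 * x ^ 2 * y * z ^ 2 - 2 * x ^ 2 * y - 4 * x * z + y ^ 5 + 2 * y ^ 3 * z ^ 2 + 2 * y ^ 3 + y * z ^ 4 + 2 * y * z ^ 2 + y⟩

/-- entry of the adjugate -/
def c11 (x y z : ℝ) : ℂ :=
  ⟨- x ^ 4 * z - 2 * x ^ 2 * y ^ 2 * z - 2 * x ^ 2 * z ^ 3 + 2 * x ^ 2 * z + 4 * x * y - y ^ 4 * z - 2 * y ^ 2 * z ^ 3 - 2 * y ^ 2 * z - z ^ 5 - 2 * z ^ 3 - z,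
    0⟩

/-- entry of the adjugate -/
def c12 (x y z : ℝ) : ℂ :=
  ⟨2 * x ^ 3 * z + 3 * x ^ 2 * y + 2 * x * y ^ 2 * z + 2 * x * z ^ 3 + 2 * x * z - y ^ 3 - y * z ^ 2 - y,
    - x ^ 3 + 2 * x ^ 2 * y * z + 3 * x * y ^ 2 - x * z ^ 2 - x + 2 * y ^ 3 * z + 2 * y * z ^ 3 + 2 * y * z⟩

/-- entry of the adjugate -/
def c13 (x y z : ℝ) : ℂ :=
  ⟨x ^ 4 + 2 * x ^ 2 * y ^ 2 + x ^ 2 - 4 * x * y * z + y ^ 4 + y ^ 2 - z ^ 4 - z ^ 2,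
    x ^ 2 * z - 4 * x * y + y ^ 2 * z + z ^ 3 + z⟩

/-- entry of the adjugate -/
def c14 (x y z : ℝ) : ℂ :=
  ⟨2 * x ^ 3 * y + 3 * x ^ 2 * z + 2 * x * y ^ 3 + 2 * x * y * z ^ 2 + 2 * x * y - y ^ 2 * z - z ^ 3 - z,
    - x ^ 4 - 2 * x ^ 2 * z ^ 2 - x ^ 2 + 4 * x * y * z + y ^ 4 + y ^ 2 - z ^ 4 - z ^ 2⟩

/-- entry of the adjugate -/
def c15 (x y z : ℝ) : ℂ :=
  ⟨x ^ 3 - 2 * x ^ 2 * y * z + x * y ^ 2 - 3 * x * z ^ 2 + x - 2 * y ^ 3 * z - 2 * y * z ^ 3 - 2 * y * z,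
    - x ^ 2 * y + 4 * x * z - y ^ 3 - y * z ^ 2 - y⟩

/-- entry of the adjugate -/
def c20 (x y z : ℝ) : ℂ :=
  ⟨- x ^ 4 - 2 * x ^ 2 * y ^ 2 - x ^ 2 + 4 * x * y * z - y ^ 4 - y ^ 2 + z ^ 4 + z ^ 2,
    - x ^ 2 * z + 4 * x * y - y ^ 2 * z - z ^ 3 - z⟩

/-- entry of the adjugate -/
def c21 (x y z : ℝ) : ℂ :=
  ⟨2 * x ^ 3 * z + 3 * x ^ 2 * y + 2 * x * y ^ 2 * z + 2 * x * z ^ 3 + 2 * x * z - y ^ 3 - y * z ^ 2 - y,
    x ^ 3 - 2 * x ^ 2 * y * z - 3 * x * y ^ 2 + x * z ^ 2 + x - 2 * y ^ 3 * z - 2 * y * z ^ 3 - 2 * y * z⟩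

/-- entry of the adjugate -/
def c22 (x y z : ℝ) : ℂ :=
  ⟨x ^ 4 * z + 2 * x ^ 2 * y ^ 2 * z + 2 * x ^ 2 * z ^ 3 + 2 * x ^ 2 * z - 4 * x * y + y ^ 4 * z + 2 * y ^ 2 * z ^ 3 - 2 * y ^ 2 * z + z ^ 5 + 2 * z ^ 3 + z,
    0⟩

/-- entry of the adjugate -/
def c23 (x y z : ℝ) : ℂ :=
  ⟨x ^ 5 + 2 * x ^ 3 * y ^ 2 + 2 * x ^ 3 * z ^ 2 + 2 * x ^ 3 + x * y ^ 4 + 2 * x * y ^ 2 * z ^ 2 - 2 * x * y ^ 2 + x * z ^ 4 + 2 * x * z ^ 2 + x - 4 * y * z,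
    - x ^ 4 * y - 2 * x ^ 2 * y ^ 3 - 2 * x ^ 2 * y * z ^ 2 - 4 * x ^ 2 * y - y ^ 5 - 2 * y ^ 3 * z ^ 2 - y * z ^ 4 - 4 * y * z ^ 2 + y⟩

/-- entry of the adjugate -/
def c24 (x y z : ℝ) : ℂ :=
  ⟨2 * x ^ 3 * z - x ^ 2 * y + 2 * x * y ^ 2 * z + 2 * x * z ^ 3 + 2 * x * z - y ^ 3 + 3 * y * z ^ 2 - y,
    x ^ 3 + x * y ^ 2 + x * z ^ 2 + x - 4 * y * z⟩

/-- entry of the adjugate -/
def c25 (x y z : ℝ) : ℂ :=
  ⟨x ^ 4 + x ^ 2 + 4 * x * y * z - y ^ 4 - 2 * y ^ 2 * z ^ 2 - y ^ 2 - z ^ 4 - z ^ 2,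
    - 2 * x ^ 3 * y + x ^ 2 * z - 2 * x * y ^ 3 - 2 * x * y * z ^ 2 - 2 * x * y - 3 * y ^ 2 * z + z ^ 3 + z⟩

/-- entry of the adjugate -/
def c30 (x y z : ℝ) : ℂ :=
  ⟨2 * x ^ 3 * z + 3 * x ^ 2 * y + 2 * x * y ^ 2 * z + 2 * x * z ^ 3 + 2 * x * z - y ^ 3 - y * z ^ 2 - y,
    - x ^ 3 + 2 * x ^ 2 * y * z + 3 * x * y ^ 2 - x * z ^ 2 - x + 2 * y ^ 3 * z + 2 * y * z ^ 3 + 2 * y * z⟩

/-- entry of the adjugate -/
def c31 (x y z : ℝ) : ℂ :=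
  ⟨x ^ 4 + 2 * x ^ 2 * y ^ 2 + x ^ 2 - 4 * x * y * z + y ^ 4 + y ^ 2 - z ^ 4 - z ^ 2,
    - x ^ 2 * z + 4 * x * y - y ^ 2 * z - z ^ 3 - z⟩

/-- entry of the adjugate -/
def c32 (x y z : ℝ) : ℂ :=
  ⟨x ^ 5 + 2 * x ^ 3 * y ^ 2 + 2 * x ^ 3 * z ^ 2 + 2 * x ^ 3 + x * y ^ 4 + 2 * x * y ^ 2 * z ^ 2 - 2 * x * y ^ 2 + x * z ^ 4 + 2 * x * z ^ 2 + x - 4 * y * z,
    x ^ 4 * y + 2 * x ^ 2 * y ^ 3 + 2 * x ^ 2 * y * z ^ 2 + 4 * x ^ 2 * y + y ^ 5 + 2 * y ^ 3 * z ^ 2 + y * z ^ 4 + 4 * y * z ^ 2 - y⟩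

/-- entry of the adjugate -/
def c33 (x y z : ℝ) : ℂ :=
  ⟨- x ^ 4 * z - 2 * x ^ 2 * y ^ 2 * z - 2 * x ^ 2 * z ^ 3 - 2 * x ^ 2 * z + 4 * x * y - y ^ 4 * z - 2 * y ^ 2 * z ^ 3 + 2 * y ^ 2 * z - z ^ 5 - 2 * z ^ 3 - z,
    0⟩

/-- entry of the adjugate -/
def c34 (x y z : ℝ) : ℂ :=
  ⟨x ^ 4 + x ^ 2 + 4 * x * y * z - y ^ 4 - 2 * y ^ 2 * z ^ 2 - y ^ 2 - z ^ 4 - z ^ 2,
    2 * x ^ 3 * y - x ^ 2 * z + 2 * x * y ^ 3 + 2 * x * y * z ^ 2 + 2 * x * y + 3 * y ^ 2 * z - z ^ 3 - z⟩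

/-- entry of the adjugate -/
def c35 (x y z : ℝ) : ℂ :=
  ⟨- 2 * x ^ 3 * z + x ^ 2 * y - 2 * x * y ^ 2 * z - 2 * x * z ^ 3 - 2 * x * z + y ^ 3 - 3 * y * z ^ 2 + y,
    x ^ 3 + x * y ^ 2 + x * z ^ 2 + x - 4 * y * z⟩

/-- entry of the adjugate -/
def c40 (x y z : ℝ) : ℂ :=
  ⟨- x ^ 3 + 2 * x ^ 2 * y * z - x * y ^ 2 + 3 * x * z ^ 2 - x + 2 * y ^ 3 * z + 2 * y * z ^ 3 + 2 * y * z,
    x ^ 2 * y - 4 * x * z + y ^ 3 + y * z ^ 2 + y⟩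

/-- entry of the adjugate -/
def c41 (x y z : ℝ) : ℂ :=
  ⟨2 * x ^ 3 * y + 3 * x ^ 2 * z + 2 * x * y ^ 3 + 2 * x * y * z ^ 2 + 2 * x * y - y ^ 2 * z - z ^ 3 - z,
    x ^ 4 + 2 * x ^ 2 * z ^ 2 + x ^ 2 - 4 * x * y * z - y ^ 4 - y ^ 2 + z ^ 4 + z ^ 2⟩

/-- entry of the adjugate -/
def c42 (x y z : ℝ) : ℂ :=
  ⟨2 * x ^ 3 * z - x ^ 2 * y + 2 * x * y ^ 2 * z + 2 * x * z ^ 3 + 2 * x * z - y ^ 3 + 3 * y * z ^ 2 - y,
    - x ^ 3 - x * y ^ 2 - x * z ^ 2 - x + 4 * y * z⟩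

/-- entry of the adjugate -/
def c43 (x y z : ℝ) : ℂ :=
  ⟨x ^ 4 + x ^ 2 + 4 * x * y * z - y ^ 4 - 2 * y ^ 2 * z ^ 2 - y ^ 2 - z ^ 4 - z ^ 2,
    - 2 * x ^ 3 * y + x ^ 2 * z - 2 * x * y ^ 3 - 2 * x * y * z ^ 2 - 2 * x * y - 3 * y ^ 2 * z + z ^ 3 + z⟩

/-- entry of the adjugate -/
def c44 (x y z : ℝ) : ℂ :=
  ⟨x ^ 4 * z + 2 * x ^ 2 * y ^ 2 * z + 2 * x ^ 2 * z ^ 3 + 4 * x ^ 2 * z + y ^ 4 * z + 2 * y ^ 2 * z ^ 3 + 4 * y ^ 2 * z + z ^ 5 - z,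
    0⟩

/-- entry of the adjugate -/
def c45 (x y z : ℝ) : ℂ :=
  ⟨x ^ 5 + 2 * x ^ 3 * y ^ 2 + 2 * x ^ 3 * z ^ 2 + 2 * x ^ 3 + x * y ^ 4 + 2 * x * y ^ 2 * z ^ 2 + 2 * x * y ^ 2 + x * z ^ 4 - 2 * x * z ^ 2 + x - 4 * y * z,
    - x ^ 4 * y - 2 * x ^ 2 * y ^ 3 - 2 * x ^ 2 * y * z ^ 2 - 2 * x ^ 2 * y + 4 * x * z - y ^ 5 - 2 * y ^ 3 * z ^ 2 - 2 * y ^ 3 - y * z ^ 4 + 2 * y * z ^ 2 - y⟩

/-- entry of the adjugate -/
def c50 (x y z : ℝ) : ℂ :=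
  ⟨2 * x ^ 3 * y + 3 * x ^ 2 * z + 2 * x * y ^ 3 + 2 * x * y * z ^ 2 + 2 * x * y - y ^ 2 * z - z ^ 3 - z,
    - x ^ 4 - 2 * x ^ 2 * z ^ 2 - x ^ 2 + 4 * x * y * z + y ^ 4 + y ^ 2 - z ^ 4 - z ^ 2⟩

/-- entry of the adjugate -/
def c51 (x y z : ℝ) : ℂ :=
  ⟨x ^ 3 - 2 * x ^ 2 * y * z + x * y ^ 2 - 3 * x * z ^ 2 + x - 2 * y ^ 3 * z - 2 * y * z ^ 3 - 2 * y * z,
    x ^ 2 * y - 4 * x * z + y ^ 3 + y * z ^ 2 + y⟩

/-- entry of the adjugate -/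
def c52 (x y z : ℝ) : ℂ :=
  ⟨x ^ 4 + x ^ 2 + 4 * x * y * z - y ^ 4 - 2 * y ^ 2 * z ^ 2 - y ^ 2 - z ^ 4 - z ^ 2,
    2 * x ^ 3 * y - x ^ 2 * z + 2 * x * y ^ 3 + 2 * x * y * z ^ 2 + 2 * x * y + 3 * y ^ 2 * z - z ^ 3 - z⟩

/-- entry of the adjugate -/
def c53 (x y z : ℝ) : ℂ :=
  ⟨- 2 * x ^ 3 * z + x ^ 2 * y - 2 * x * y ^ 2 * z - 2 * x * z ^ 3 - 2 * x * z + y ^ 3 - 3 * y * z ^ 2 + y,
    - x ^ 3 - x * y ^ 2 - x * z ^ 2 - x + 4 * y * z⟩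

/-- entry of the adjugate -/
def c54 (x y z : ℝ) : ℂ :=
  ⟨x ^ 5 + 2 * x ^ 3 * y ^ 2 + 2 * x ^ 3 * z ^ 2 + 2 * x ^ 3 + x * y ^ 4 + 2 * x * y ^ 2 * z ^ 2 + 2 * x * y ^ 2 + x * z ^ 4 - 2 * x * z ^ 2 + x - 4 * y * z,
    x ^ 4 * y + 2 * x ^ 2 * y ^ 3 + 2 * x ^ 2 * y * z ^ 2 + 2 * x ^ 2 * y - 4 * x * z + y ^ 5 + 2 * y ^ 3 * z ^ 2 + 2 * y ^ 3 + y * z ^ 4 - 2 * y * z ^ 2 + y⟩

/-- entry of the adjugate -/
def c55 (x y z : ℝ) : ℂ :=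
  ⟨- x ^ 4 * z - 2 * x ^ 2 * y ^ 2 * z - 2 * x ^ 2 * z ^ 3 - 4 * x ^ 2 * z - y ^ 4 * z - 2 * y ^ 2 * z ^ 3 - 4 * y ^ 2 * z - z ^ 5 + z,
    0⟩

/-- table of the adjugate -/
def tab (x y z : ℝ) : Fin 3 → Fin 2 → Fin 3 → Fin 2 → ℂ :=
  ![![![![c00 x y z, c01 x y z], ![c02 x y z, c03 x y z], ![c04 x y z, c05 x y z]],
      ![![c10 x y z, c11 x y z], ![c12 x y z, c13 x y z], ![c14 x y z, c15 x y z]]],
    ![![![c20 x y z, c21 x y z], ![c22 x y z, c23 x y z], ![c24 x y z, c25 x y z]],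
      ![![c30 x y z, c31 x y z], ![c32 x y z, c33 x y z], ![c34 x y z, c35 x y z]]],
    ![![![c40 x y z, c41 x y z], ![c42 x y z, c43 x y z], ![c44 x y z, c45 x y z]],
      ![![c50 x y z, c51 x y z], ![c52 x y z, c53 x y z], ![c54 x y z, c55 x y z]]]]

/-- the adjugate -/
def adjm (x y z : ℝ) : Matrix (Fin 3 × Fin 2) (Fin 3 × Fin 2) ℂ :=
  Matrix.of fun p q => tab x y z p.1 p.2 q.1 q.2

/-- table of the localizer -/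
def ltab (x y z : ℝ) : Fin 3 → Fin 2 → Fin 3 → Fin 2 → ℂ :=
  ![![![![⟨-z, 0⟩, ⟨-x, y⟩], ![⟨1, 0⟩, ⟨0, 0⟩], ![⟨0, 0⟩, ⟨0, -1⟩]],
      ![![⟨-x, -y⟩, ⟨z, 0⟩], ![⟨0, 0⟩, ⟨-1, 0⟩], ![⟨0, 1⟩, ⟨0, 0⟩]]],
    ![![![⟨1, 0⟩, ⟨0, 0⟩], ![⟨-z, 0⟩, ⟨-x, y⟩], ![⟨0, 0⟩, ⟨1, 0⟩]],
      ![![⟨0, 0⟩, ⟨-1, 0⟩], ![⟨-x, -y⟩, ⟨z, 0⟩], ![⟨1, 0⟩, ⟨0, 0⟩]]],
    ![![![⟨0, 0⟩, ⟨0, -1⟩], ![⟨0, 0⟩, ⟨1, 0⟩], ![⟨-z, 0⟩, ⟨-x, y⟩]],
      ![![⟨0, 1⟩, ⟨0, 0⟩], ![⟨1, 0⟩, ⟨0, 0⟩], ![⟨-x, -y⟩, ⟨z, 0⟩]]]]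

lemma localizer_eq (lam : Fin 3 → ℝ) :
    localizer AA sig lam =
      Matrix.of fun p q => ltab (lam 0) (lam 1) (lam 2) p.1 p.2 q.1 q.2 := by
  ext ⟨i, a⟩ ⟨j, b⟩
  fin_cases i <;> fin_cases a <;> fin_cases j <;> fin_cases b <;>
    refine Complex.ext ?_ ?_ <;>
    simp [localizer, AA, sig, ltab, Matrix.sum_apply, Fin.sum_univ_three,
      Matrix.kroneckerMap_apply, Matrix.sub_apply, Matrix.smul_apply]


set_option maxHeartbeats 8000000 in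
lemma mul_adjm (x y z : ℝ) :
    (Matrix.of fun p q => ltab x y z p.1 p.2 q.1 q.2 :
      Matrix (Fin 3 × Fin 2) (Fin 3 × Fin 2) ℂ) * adjm x y z = (-(pol x y z : ℝ) : ℂ) • 1 := by
  ext ⟨i, a⟩ ⟨j, b⟩
  rw [Matrix.mul_apply, Fintype.sum_prod_type]
  simp only [Fin.sum_univ_three, Fin.sum_univ_two, Matrix.of_apply, adjm, Matrix.smul_apply]
  fin_cases i <;> fin_cases a <;> fin_cases j <;> fin_cases b <;>
    refine Complex.ext ?_ ?_ <;>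
    simp [tab, ltab, pol, c00, c01, c02, c03, c04, c05, c10, c11, c12, c13, c14, c15, c20, c21, c22, c23, c24, c25, c30, c31, c32, c33, c34, c35, c40, c41, c42, c43, c44, c45, c50, c51, c52, c53, c54, c55, ← Complex.ofReal_pow, ← Complex.ofReal_mul, ← Complex.ofReal_add] <;> ring

lemma isUnit_of_pol_ne {lam : Fin 3 → ℝ} (h : pol (lam 0) (lam 1) (lam 2) ≠ 0) :
    IsUnit (localizer AA sig lam) := by
  have h1 := mul_adjm (lam 0) (lam 1) (lam 2)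
  rw [← localizer_eq] at h1
  have h2 : (-(pol (lam 0) (lam 1) (lam 2) : ℝ) : ℂ) ≠ 0 := by
    simpa using h
  have h3 : localizer AA sig lam *
      ((-(pol (lam 0) (lam 1) (lam 2) : ℝ) : ℂ)⁻¹ • adjm (lam 0) (lam 1) (lam 2)) = 1 := by
    rw [Matrix.mul_smul, h1, smul_smul, inv_mul_cancel₀ h2, one_smul]
  exact IsUnit.of_mul_eq_one _ h3

/-- the five points -/
noncomputable def pts : Fin 5 → Fin 3 → ℝ :=
  ![![0, 0, 0], ![1 / 3, 1 / 3, 1 / 3], ![1 / 3, -1 / 3, -1 / 3], ![-1 / 3, 1 / 3, -1 / 3],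
    ![-1 / 3, -1 / 3, 1 / 3]]

/-- kernel vectors at the five points -/
noncomputable def kv : Fin 5 → Fin 3 → Fin 2 → ℂ :=
  ![![![⟨0, 0⟩, ⟨1, 0⟩], ![⟨0, 0⟩, ⟨0, 1⟩], ![⟨1, 0⟩, ⟨0, 0⟩]],
    ![![⟨3, 1⟩, ⟨5, 1⟩], ![⟨3, -1⟩, ⟨1, 5⟩], ![⟨6, 0⟩, ⟨0, 0⟩]],
    ![![⟨-3, 1⟩, ⟨5, -1⟩], ![⟨3, 1⟩, ⟨-1, 5⟩], ![⟨6, 0⟩, ⟨0, 0⟩]],
    ![![⟨3, -1⟩, ⟨5, -1⟩], ![⟨-3, -1⟩, ⟨-1, 5⟩], ![⟨6, 0⟩, ⟨0, 0⟩]],
    ![![⟨-3, -1⟩, ⟨5, 1⟩], ![⟨-3, 1⟩, ⟨1, 5⟩], ![⟨6, 0⟩, ⟨0, 0⟩]]]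

lemma kv_mul (m : Fin 5) : localizer AA sig (pts m) *ᵥ (fun p => kv m p.1 p.2) = 0 := by
  rw [localizer_eq]
  ext ⟨i, a⟩
  rw [Matrix.mulVec, dotProduct, Fintype.sum_prod_type]
  simp only [Fin.sum_univ_three, Fin.sum_univ_two, Matrix.of_apply]
  fin_cases m <;> fin_cases i <;> fin_cases a <;>
    refine Complex.ext ?_ ?_ <;>
    simp [ltab, pts, kv] <;> norm_num

lemma kv_ne (m : Fin 5) : (fun p : Fin 3 × Fin 2 => kv m p.1 p.2) ≠ 0 := by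
  intro h
  have h1 := congrFun h (2, 0)
  have h2 := congrArg Complex.re h1
  fin_cases m <;> simp [kv] at h2

lemma not_isUnit_pts (m : Fin 5) : ¬ IsUnit (localizer AA sig (pts m)) := by
  intro h
  have h1 := Matrix.mulVec_injective_iff_isUnit.mpr h
  apply kv_ne m
  apply h1
  rw [kv_mul, Matrix.mulVec_zero]

lemma abs_third {a : ℝ} (h : a ^ 2 = 1 / 9) : a = 1 / 3 ∨ a = -1 / 3 := by
  have : (a - 1 / 3) * (a + 1 / 3) = 0 := by nlinarith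
  rcases mul_eq_zero.mp this with h | h
  · left; linarith
  · right; linarith

lemma pol_zero {x y z : ℝ} (h : pol x y z = 0) :
    (x = 0 ∧ y = 0 ∧ z = 0) ∨
      ((x ^ 2 = 1 / 9 ∧ y ^ 2 = 1 / 9 ∧ z ^ 2 = 1 / 9) ∧ 0 < x * y * z) := by
  set s := x ^ 2 + y ^ 2 + z ^ 2 with hs
  have hs0 : 0 ≤ s := by positivity
  by_cases hs1 : s = 0
  · left
    refine ⟨?_, ?_, ?_⟩ <;> nlinarith [sq_nonneg x, sq_nonneg y, sq_nonneg z]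
  right
  have hspos : 0 < s := lt_of_le_of_ne hs0 (Ne.symm hs1)
  set u := Real.sqrt (s / 3) with hu
  have hu0 : 0 < u := Real.sqrt_pos.mpr (by positivity)
  have hu2 : u ^ 2 = s / 3 := Real.sq_sqrt (by positivity)
  have hsu : s = 3 * u ^ 2 := by linarith
  -- AM-GM
  have amgm : (x * y * z) ^ 2 ≤ (u ^ 3) ^ 2 := by
    have e1 : (u ^ 3) ^ 2 = (s / 3) ^ 3 := by rw [← hu2]; ring
    rw [e1, hs]
    have hx := sq_nonneg x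
    have hy := sq_nonneg y
    have hz := sq_nonneg z
    have key : ∀ a b c : ℝ, 0 ≤ a → 0 ≤ b → 0 ≤ c → a * b * c ≤ ((a + b + c) / 3) ^ 3 := by
      intro a b c ha hb hc
      have h1 : 0 ≤ (a + b + c) * ((a - b) ^ 2 + (b - c) ^ 2 + (c - a) ^ 2) := by positivity
      have h2 : 0 ≤ a * (b - c) ^ 2 + b * (c - a) ^ 2 + c * (a - b) ^ 2 := by positivity
      nlinarith
    have := key (x ^ 2) (y ^ 2) (z ^ 2) hx hy hz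
    calc (x * y * z) ^ 2 = x ^ 2 * y ^ 2 * z ^ 2 := by ring
      _ ≤ _ := this
  have hP : x * y * z ≤ u ^ 3 := by
    exact (le_abs_self _).trans (abs_le_of_sq_le_sq amgm (by positivity))
  have hpol : pol x y z = u ^ 2 * (3 * u - 1) ^ 2 * (3 * u ^ 2 + 2 * u + 3)
      + 16 * (u ^ 3 - x * y * z) := by
    rw [pol, ← hs, hsu]; ring
  rw [hpol] at h
  have h1 : 0 ≤ u ^ 2 * (3 * u - 1) ^ 2 * (3 * u ^ 2 + 2 * u + 3) := by positivity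
  have h2 : u ^ 2 * (3 * u - 1) ^ 2 * (3 * u ^ 2 + 2 * u + 3) = 0 := by linarith
  have h3 : x * y * z = u ^ 3 := by linarith
  have h4 : 3 * u - 1 = 0 := by
    have e1 : u ^ 2 * (3 * u ^ 2 + 2 * u + 3) ≠ 0 := by positivity
    have e2 : (3 * u - 1) ^ 2 * (u ^ 2 * (3 * u ^ 2 + 2 * u + 3)) = 0 := by linarith
    rcases mul_eq_zero.mp e2 with e | e
    · exact pow_eq_zero_iff (by norm_num) |>.mp e
    · exact absurd e e1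
  have h5 : u = 1 / 3 := by linarith
  rw [h5] at h3 hsu
  have h6 : x ^ 2 + y ^ 2 + z ^ 2 = 1 / 3 := by rw [← hs, hsu]; norm_num
  have h7 : x ^ 2 * y ^ 2 * z ^ 2 = 1 / 729 := by
    calc x ^ 2 * y ^ 2 * z ^ 2 = (x * y * z) ^ 2 := by ring
      _ = 1 / 729 := by rw [h3]; norm_num
  refine ⟨?_, by rw [h3]; norm_num⟩
  have key : ∀ a b c : ℝ, 0 ≤ a → 0 ≤ b → 0 ≤ c → a + b + c = 1 / 3 → a * b * c = 1 / 729 →
      a = b ∧ b = c := by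
    intro a b c ha hb hc hsum hprod
    have e1 : (a + b + c) ^ 3 - 27 * (a * b * c) =
        (a + b + c) / 2 * ((a - b) ^ 2 + (b - c) ^ 2 + (c - a) ^ 2) +
        3 * (a * (b - c) ^ 2 + b * (c - a) ^ 2 + c * (a - b) ^ 2) := by ring
    rw [hsum, hprod] at e1
    have e2 : 0 ≤ a * (b - c) ^ 2 + b * (c - a) ^ 2 + c * (a - b) ^ 2 := by positivity
    have e3 : (a - b) ^ 2 + (b - c) ^ 2 + (c - a) ^ 2 ≤ 0 := by linarith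
    have e4 : (a - b) ^ 2 = 0 := by
      linarith [sq_nonneg (a - b), sq_nonneg (b - c), sq_nonneg (c - a)]
    have e5 : (b - c) ^ 2 = 0 := by
      linarith [sq_nonneg (a - b), sq_nonneg (b - c), sq_nonneg (c - a)]
    have e6 := pow_eq_zero_iff (two_ne_zero) |>.mp e4
    have e7 := pow_eq_zero_iff (two_ne_zero) |>.mp e5
    constructor <;> linarith
  obtain ⟨k1, k2⟩ := key (x ^ 2) (y ^ 2) (z ^ 2) (sq_nonneg _) (sq_nonneg _) (sq_nonneg _) h6 h7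
  refine ⟨by linarith, by linarith, by linarith⟩

lemma spectrum_eq : cliffordSpectrum AA sig = Set.range pts := by
  ext lam
  constructor
  · intro h
    have h1 : pol (lam 0) (lam 1) (lam 2) = 0 := by
      by_contra h1
      exact h (isUnit_of_pol_ne h1)
    rcases pol_zero h1 with ⟨h0, h1, h2⟩ | ⟨⟨h0, h1, h2⟩, hpos⟩
    · refine ⟨0, ?_⟩
      ext i; fin_cases i <;> simp [pts, h0, h1, h2]
    · rcases abs_third h0 with h0 | h0 <;> rcases abs_third h1 with h1 | h1 <;>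
        rcases abs_third h2 with h2 | h2 <;> rw [h0, h1, h2] at hpos
      · refine ⟨1, ?_⟩
        ext i; fin_cases i <;> simp [pts, h0, h1, h2]
      · norm_num at hpos
      · norm_num at hpos
      · refine ⟨2, ?_⟩
        ext i; fin_cases i <;> simp [pts, h0, h1, h2]
      · norm_num at hpos
      · refine ⟨3, ?_⟩
        ext i; fin_cases i <;> simp [pts, h0, h1, h2]
      · refine ⟨4, ?_⟩
        ext i; fin_cases i <;> simp [pts, h0, h1, h2]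
      · norm_num at hpos
  · rintro ⟨m, rfl⟩
    exact not_isUnit_pts m

lemma pts_injective : Function.Injective pts := by
  intro a b h
  have h0 := congrFun h 0
  have h1 := congrFun h 1
  have h2 := congrFun h 2
  fin_cases a <;> fin_cases b <;> first
    | rfl
    | (exfalso; simp only [pts] at h0; norm_num at h0; done)
    | (exfalso; simp only [pts] at h1; norm_num at h1; done)
    | (exfalso; simp only [pts] at h2; norm_num at h2; done)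

/-- **Theorem.** There are three Hermitian `3 × 3` matrices whose Clifford spectrum (computed with
an irreducible representation of the Clifford relations) is finite and has exactly five elements.
Hence it is not true that a finite Clifford spectrum of Hermitian `n × n` matrices has at most
`n` elements. -/
theorem result :
    (∃ (A : Fin 3 → Matrix (Fin 3) (Fin 3) ℂ) (γ : Fin 3 → Matrix (Fin 2) (Fin 2) ℂ),
      (∀ j, (A j).IsHermitian) ∧ IsCliffordIrrep γ ∧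
        (cliffordSpectrum A γ).Finite ∧ (cliffordSpectrum A γ).ncard = 5) ∧
    ¬ (∀ (n d k : ℕ) (A : Fin d → Matrix (Fin n) (Fin n) ℂ)
      (γ : Fin d → Matrix (Fin k) (Fin k) ℂ), 1 ≤ n → 1 ≤ d →
      (∀ j, (A j).IsHermitian) → IsCliffordIrrep γ →
      (cliffordSpectrum A γ).Finite → (cliffordSpectrum A γ).ncard ≤ n) := by
  have h1 : (cliffordSpectrum AA sig).Finite := by
    rw [spectrum_eq]; exact Set.finite_range pts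
  have h2 : (cliffordSpectrum AA sig).ncard = 5 := by
    rw [spectrum_eq, Set.ncard_eq_toFinset_card', Set.toFinset_range,
      Finset.card_image_of_injective _ pts_injective]
    simp
  refine ⟨⟨AA, sig, AA_herm, sig_irrep, h1, h2⟩, fun h => ?_⟩
  have h3 := h 3 3 2 AA sig (by norm_num) (by norm_num) AA_herm sig_irrep h1
  omega

end Pool.Agent.Results.MP_fa5fea_an.FivePoints
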